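import Pool.Agent.Lib.MP_c59c01_pr.Env

/-!
The logarithmic moment condition for the Stack Model is not sharp: there is a law of `X` on
`{1, 2, ...}` with `E log X = ∞` such that in every dimension `d ≥ 2` there is
`p ∈ (0, p_c)` with `θ^Λ(p,q) = 0` for almost every environment and all `q < 1`.
-/

set_option autoImplicit false

open MeasureTheory ProbabilityTheory
open scoped ENNReal

namespace Pool.Agent.Results.MP_c59c01_pr.NotSharp

open Pool.Agent.Lib.MP_c59c01_pr

theorem result :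
    ∃ μ : Measure ℕ, IsProbabilityMeasure μ ∧ μ {0} = 0 ∧
      ∫⁻ x, ENNReal.ofReal (Real.log (x : ℝ)) ∂μ = ⊤ ∧
      ∀ d : ℕ, 2 ≤ d → ∃ p : unitInterval, 0 < (p : ℝ) ∧ (p : ℝ) < pc (d - 1) ∧
        ∀ᵐ X ∂(Measure.infinitePi (fun _ : ℤ => μ)),
          ∀ q : unitInterval, (q : ℝ) < 1 → theta (d - 1) X p q = 0 := by
  refine ⟨law, inferInstance, law_zero, law_log, fun d _ => ?_⟩
  set m := d - 1
  have h6 : (1 : ℝ) ≤ 6 ^ (m + 1) := one_le_pow₀ (by norm_num)
  have h63 : (6 : ℝ) ^ (m + 1) = 2 ^ (m + 1) * 3 ^ (m + 1) := by rw [← mul_pow]; norm_num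
  have h2 : (2 : ℝ) ≤ 2 ^ (m + 1) := le_self_pow₀ (by norm_num) (by omega)
  let p : unitInterval := ⟨1 / (2 * 6 ^ (m + 1)), by positivity, by
    rw [div_le_one (by positivity)]; linarith⟩
  let p' : unitInterval := ⟨1 / 6 ^ (m + 1), by positivity, by
    rw [div_le_one (by positivity)]; linarith⟩
  have hp : (p : ℝ) = 1 / (2 * 6 ^ (m + 1)) := rfl
  have hp' : (p' : ℝ) = 1 / 6 ^ (m + 1) := rfl
  refine ⟨p, by rw [hp]; positivity, lt_pc p p' ?_ ?_, ?_⟩
  · rw [hp, hp']
    exact one_div_lt_one_div_of_lt (by positivity) (by linarith)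
  · have h : ((3 ^ (m + 1) : ℕ) : NNReal) * unitInterval.toNNReal p' < 1 := by
      rw [← NNReal.coe_lt_coe]
      push_cast
      change (3 : ℝ) ^ (m + 1) * (p' : ℝ) < 1
      rw [hp', h63, mul_one_div, div_lt_one (by positivity)]
      have : (0 : ℝ) < 3 ^ (m + 1) := by positivity
      nlinarith
    exact_mod_cast h
  · filter_upwards [ae_theta_eq_zero law law_zero law_sum m] with X hX q hq
    refine hX p q ?_ (by exact_mod_cast hq)
    have h : (2 : NNReal) ^ (m + 1) * (((3 ^ (m + 1) : ℕ) : NNReal) * unitInterval.toNNReal p)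
        ≤ 2⁻¹ := by
      rw [← NNReal.coe_le_coe]
      push_cast
      change (2 : ℝ) ^ (m + 1) * ((3 : ℝ) ^ (m + 1) * (p : ℝ)) ≤ 2⁻¹
      rw [hp, h63]
      apply le_of_eq
      field_simp
    have h' := ENNReal.coe_le_coe.2 h
    simpa using h'

end Pool.Agent.Results.MP_c59c01_pr.NotSharp
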