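import Pool.Agent.Lib.MP_c59c01_pr.TH.Sure
import Pool.Agent.Lib.MP_c59c01_pr.TH.Laws

/-!
A sharp criterion for the Stack Model. Let `T n = P(X ≥ n)`. If `T (2 n) / T n → 1` and
`T (2 ^ n) / T n → θ ≠ 1 / 2`, then the conclusion of the question holds exactly when `θ > 1 / 2`.
-/

set_option autoImplicit false

open MeasureTheory ProbabilityTheory Filter Topology
open scoped ENNReal

namespace Pool.Agent.Results.MP_c59c01_pr.Threshold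

open Pool.Agent.Lib.MP_c59c01_pr

theorem result (μ : Measure ℕ) [IsProbabilityMeasure μ] (h0 : μ {0} = 0) (θ : ℝ) (hθ : θ ≠ 1 / 2)
    (h1 : Tendsto (fun n : ℕ => μ.real (Set.Ici (2 * n)) / μ.real (Set.Ici n)) atTop (𝓝 1))
    (h2 : Tendsto (fun n : ℕ => μ.real (Set.Ici (2 ^ n)) / μ.real (Set.Ici n)) atTop (𝓝 θ))
    (d : ℕ) (hd : 2 ≤ d) :
    List.TFAE [
      ∀ p : unitInterval, 0 < (p : ℝ) → (p : ℝ) < pc (d - 1) → ∃ q₀ : ℝ, q₀ < 1 ∧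
        ∀ q : unitInterval, q₀ < (q : ℝ) → (q : ℝ) < 1 →
          0 < Measure.infinitePi (fun _ : ℤ => μ) {X | 0 < theta (d - 1) X p q},
      ∀ p : unitInterval, 0 < (p : ℝ) → (p : ℝ) < pc (d - 1) → ∃ q₀ : ℝ, q₀ < 1 ∧
        ∀ᵐ X ∂(Measure.infinitePi fun _ : ℤ => μ), ∀ q : unitInterval, q₀ < (q : ℝ) →
          0 < theta (d - 1) X p q,
      1 / 2 < θ] :=
  TH.main_tfae μ h0 hθ h1 h2 (by omega)

/-- The hypotheses are met for every `θ` in `(0, 1)`, by a law with `E log X = ∞`. -/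
theorem laws (θ : ℝ) (h0 : 0 < θ) (h1 : θ < 1) : ∃ μ : Measure ℕ, IsProbabilityMeasure μ ∧
    μ {0} = 0 ∧ ∫⁻ x, ENNReal.ofReal (Real.log (x : ℝ)) ∂μ = ⊤ ∧
    Tendsto (fun n : ℕ => μ.real (Set.Ici (2 * n)) / μ.real (Set.Ici n)) atTop (𝓝 1) ∧
    Tendsto (fun n : ℕ => μ.real (Set.Ici (2 ^ n)) / μ.real (Set.Ici n)) atTop (𝓝 θ) := by
  obtain ⟨μ, hμ, hz, a, b⟩ := TH.laws h0 h1
  exact ⟨μ, hμ, hz, TH.log_inf h0 a b, a, b⟩

end Pool.Agent.Results.MP_c59c01_pr.Threshold
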